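import Mathlib
import Pool.Agent.Lib.MP_b23923_nt.Mat
import Pool.Agent.Lib.MP_b23923_nt.Modp

set_option autoImplicit false

namespace Pool.Agent.Results.MP_b23923_nt.LegendreDet

open Finset Pool.Agent.Lib.MP_b23923_nt

/-- `T(d,p)`: the determinant of the matrix `((j^2+dk^2)/p)`, `0 ≤ j, k ≤ (p-1)/2`. -/
def T (d : ℤ) (p : ℕ) [Fact p.Prime] : ℤ :=
  (Matrix.of fun j k : Finset.Icc 0 ((p - 1) / 2) =>
    legendreSym p (((j : ℕ) : ℤ) ^ 2 + d * ((k : ℕ) : ℤ) ^ 2)).det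

/-- `D(d,p)`: the determinant of the matrix `((j^2+dk^2)/p)`, `2 ≤ j, k ≤ (p-1)/2`. -/
def D (d : ℤ) (p : ℕ) [Fact p.Prime] : ℤ :=
  (Matrix.of fun j k : Finset.Icc 2 ((p - 1) / 2) =>
    legendreSym p (((j : ℕ) : ℤ) ^ 2 + d * ((k : ℕ) : ℤ) ^ 2)).det

/-- `B(d,p)`: the sum of `(x(x^2+d)/p)` over `1 ≤ x ≤ (p-1)/2`. -/
def B (d : ℤ) (p : ℕ) [Fact p.Prime] : ℤ :=
  ∑ x ∈ Finset.Icc 1 ((p - 1) / 2), legendreSym p ((x : ℤ) * ((x : ℤ) ^ 2 + d))

/-- Shifted indexing of an interval. -/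
def idx (a n b : ℕ) (h : a + n = b + 1) : Fin n ≃ Finset.Icc a b where
  toFun i := ⟨i + a, by
    have := i.isLt
    rw [Finset.mem_Icc]; omega⟩
  invFun x := ⟨(x : ℕ) - a, by
    have := Finset.mem_Icc.mp x.2
    omega⟩
  left_inv i := by
    ext
    simp
  right_inv x := by
    have := Finset.mem_Icc.mp x.2
    ext
    simp only
    omega

theorem leg_eq (p : ℕ) [Fact p.Prime] (a : ℤ) : legendreSym p a = χ p (a : ZMod p) := rfl

/-- The main identity for a fixed nonresidue `d`. -/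
theorem main (p r : ℕ) [Fact p.Prime] (hpr : p = 4 * r + 1) (G : (ZMod p)ˣ)
    (hG : ∀ x, x ∈ Subgroup.zpowers G) [NeZero (2 * r)] (e : ZMod (2 * r) → ℤ)
    (he : ∀ m, 2 * (e m - e (m + 1)) = dl hpr G hG m - sgn r m) (heven : ∀ m, e (-m) = e m)
    (d : ℤ) (hd : legendreSym p d = -1) :
    (2 * r : ℤ) ^ 2 * D d p = (2 * r) * B d p * (4 ^ (r - 1) * r * (oddMat r e).det ^ 2) ∧
      T d p = (2 * r) * B d p * (4 ^ (r - 1) * r * (oddMat r e).det ^ 2) := by
  have hr := r_pos hpr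
  rw [leg_eq] at hd
  have hmain := det_Cm_add_one hpr G hG e he heven (d : ZMod p) hd
  have hrow := Cm_row hpr (d : ZMod p) hd
  have hcol := Cm_col hpr (d : ZMod p) hd
  have hhalf : (p - 1) / 2 = 2 * r := by omega
  have hB : (∑ j : Fin (2 * r), χ p ((((j : ℕ) + 1 : ℕ) : ZMod p) *
        ((((j : ℕ) + 1 : ℕ) : ZMod p) ^ 2 + (d : ZMod p)))) = B d p := by
    unfold B
    rw [hhalf]
    rw [← Finset.sum_coe_sort (Finset.Icc 1 (2 * r))
      (fun x : ℕ => legendreSym p ((x : ℤ) * ((x : ℤ) ^ 2 + d)))]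
    refine Fintype.sum_equiv (idx 1 (2 * r) (2 * r) (by ring)) _ _ fun j => ?_
    rw [leg_eq]
    congr 1
    simp [idx]
  rw [hB] at hmain
  obtain ⟨k, hk⟩ : ∃ k, 2 * r = k + 1 := ⟨2 * r - 1, by omega⟩
  have hkr : ((k : ℤ) + 1) = 2 * r := by exact_mod_cast hk.symm
  have hD : D d p = ((Cm p (d : ZMod p) (k + 1)).submatrix Fin.succ Fin.succ).det := by
    unfold D
    rw [hhalf, ← Matrix.det_submatrix_equiv_self (idx 2 k (2 * r) (by omega))]
    congr 1
    ext i j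
    simp only [Matrix.submatrix_apply, Matrix.of_apply, Cm]
    rw [leg_eq]
    congr 1
    simp only [idx, Equiv.coe_fn_mk, Fin.val_succ]
    push_cast
    ring
  generalize hX : (2 * r : ℤ) * B d p * (4 ^ (r - 1) * r * (oddMat r e).det ^ 2) = X at hmain ⊢
  have hrow' : ∀ i, ∑ j, Cm p (d : ZMod p) (k + 1) i j = 0 := by
    rw [hk] at hrow
    exact hrow
  have hcol' : ∀ j, ∑ i, Cm p (d : ZMod p) (k + 1) i j = 0 := by
    rw [hk] at hcol
    exact hcol
  have hmain' : (Matrix.of fun i j => Cm p (d : ZMod p) (k + 1) i j + 1).det = X := by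
    rw [hk] at hmain
    exact hmain
  constructor
  · rw [← hmain', det_add_ones k _ hrow' hcol', hD, hkr]
  · rw [← hmain']
    have hT : T d p = (Matrix.of fun i j : Fin (k + 2) =>
        χ p (((i : ℕ) : ZMod p) ^ 2 + (d : ZMod p) * ((j : ℕ) : ZMod p) ^ 2)).det := by
      unfold T
      rw [hhalf, ← Matrix.det_submatrix_equiv_self (idx 0 (k + 2) (2 * r) (by omega))]
      congr 1
      ext i j
      simp only [Matrix.submatrix_apply, Matrix.of_apply]
      rw [leg_eq]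
      congr 1
      simp only [idx, Equiv.coe_fn_mk]
      push_cast
      ring
    rw [hT]
    refine det_bordered k (Cm p (d : ZMod p) (k + 1)) hrow' _ ?_ ?_ ?_ ?_
    · simp
    · intro j
      simp only [Matrix.of_apply, Fin.val_zero, Nat.cast_zero, Fin.val_succ]
      have hj : (((j : ℕ) + 1 : ℕ) : ZMod p) ≠ 0 := by
        rw [Ne, ZMod.natCast_eq_zero_iff]
        intro h
        have h1 := Nat.le_of_dvd (by omega) h
        have h2 := j.isLt
        omega
      rw [zero_pow two_ne_zero, zero_add, map_mul, hd, quadraticChar_sq_one' hj, mul_one]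
    · intro j
      simp only [Matrix.of_apply, Fin.val_zero, Nat.cast_zero, Fin.val_succ]
      have hj : (((j : ℕ) + 1 : ℕ) : ZMod p) ≠ 0 := by
        rw [Ne, ZMod.natCast_eq_zero_iff]
        intro h
        have h1 := Nat.le_of_dvd (by omega) h
        have h2 := j.isLt
        omega
      rw [zero_pow two_ne_zero, mul_zero, add_zero, quadraticChar_sq_one' hj]
    · intro i j
      simp only [Matrix.of_apply, Fin.val_succ, Cm]

/-- **Q1 holds.** For every prime `p ≡ 1 (mod 4)` there is a positive integer `t` which is a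
quadratic residue modulo `p` such that for every quadratic nonresidue `d` both identities hold. -/
theorem result (p : ℕ) [Fact p.Prime] (hp : p % 4 = 1) :
    ∃ t : ℕ, 0 < t ∧ legendreSym p (t : ℤ) = 1 ∧ ∀ d : ℤ, legendreSym p d = -1 →
      (D d p : ℚ) = (2 : ℚ) ^ (((p : ℤ) - 7) / 2) * (t : ℚ) ^ 2 * (B d p : ℚ) ∧
      (T d p : ℚ) = (2 : ℚ) ^ (((p : ℤ) - 3) / 2) * (((p : ℚ) - 1) / 4 * (t : ℚ)) ^ 2 *
        (B d p : ℚ) := by
  obtain ⟨r, hpr⟩ : ∃ r, p = 4 * r + 1 := ⟨p / 4, by omega⟩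
  have hr := r_pos hpr
  haveI : NeZero (2 * r) := ⟨by omega⟩
  obtain ⟨G, hG⟩ := IsCyclic.exists_generator (α := (ZMod p)ˣ)
  obtain ⟨e, he, heven⟩ := exists_e hpr G hG
  have hchi := chi_det hpr G hG e he heven
  have habs : legendreSym p (((oddMat r e).det.natAbs : ℕ) : ℤ) = 1 := by
    rw [leg_eq]
    rcases Int.natAbs_eq (oddMat r e).det with h | h
    · rw [← h]; exact hchi
    · have h1 : (((oddMat r e).det.natAbs : ℕ) : ℤ) = -(oddMat r e).det := by
        conv_rhs => rw [h]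
        ring
      rw [h1, Int.cast_neg, chi_neg hpr G hG]
      exact hchi
  refine ⟨(oddMat r e).det.natAbs, ?_, habs, fun d hd => ?_⟩
  · rcases Nat.eq_zero_or_pos (oddMat r e).det.natAbs with h | h
    · rw [h] at habs
      simp at habs
    · exact h
  · obtain ⟨h1, h2⟩ := main p r hpr G hG e he heven d hd
    set t := (oddMat r e).det.natAbs with ht
    have ht2 : (oddMat r e).det ^ 2 = (t : ℤ) ^ 2 := by
      rw [ht, Int.natAbs_sq]
    rw [ht2] at h1 h2
    have h1' : (2 * (r : ℚ)) ^ 2 * (D d p : ℚ) =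
        (2 * r) * (B d p : ℚ) * (4 ^ (r - 1) * r * (t : ℚ) ^ 2) := by exact_mod_cast h1
    have h2' : (T d p : ℚ) =
        (2 * r) * (B d p : ℚ) * (4 ^ (r - 1) * r * (t : ℚ) ^ 2) := by exact_mod_cast h2
    have hr0 : (r : ℚ) ≠ 0 := by exact_mod_cast (by omega : r ≠ 0)
    have e1 : ((p : ℤ) - 7) / 2 = 2 * ((r : ℤ) - 1) - 1 := by omega
    have e2 : ((p : ℤ) - 3) / 2 = 2 * ((r : ℤ) - 1) + 1 := by omega
    have e3 : (4 : ℚ) ^ (r - 1) = (2 : ℚ) ^ (2 * ((r : ℤ) - 1)) := by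
      rw [zpow_mul]
      have : ((r : ℤ) - 1) = ((r - 1 : ℕ) : ℤ) := by push_cast [hr]; ring
      rw [this, zpow_natCast]
      norm_num
    have e4 : (p : ℚ) = 4 * r + 1 := by exact_mod_cast hpr
    rw [e3] at h1' h2'
    constructor
    · rw [e1, zpow_sub₀ (two_ne_zero), zpow_one]
      have h3 : (2 * (r : ℚ)) ^ 2 ≠ 0 := pow_ne_zero _ (mul_ne_zero two_ne_zero hr0)
      apply mul_left_cancel₀ h3
      rw [h1']
      ring
    · rw [e2, zpow_add₀ (two_ne_zero), zpow_one, h2', e4]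
      ring

end Pool.Agent.Results.MP_b23923_nt.LegendreDet
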